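import Mathlib
import Pool.Agent.W425.MM.Fin

/-!
# The local motivic monodromy conjecture for nondegenerate polynomials without B1-facets

Let `f = ∑_j c_j x ^ (v j) ∈ ℂ[x_1, …, x_n]`, `f(0) = 0`, be nondegenerate with respect to its Newton
polytope: for every face of the polytope, the face polynomial and its derivatives have no common
zero in the torus. No further genericity is assumed; the number of variables and the singularity at
the origin are arbitrary (it need not be isolated), the Newton polyhedron need not be simplicial.

The only hypothesis on the polytope is that for every facet of the Newton polyhedron, with primitive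
inner normal vector `a ∈ ℕ ^ n` and `N_a = min ⟨a, ·⟩ > 0`, either `|a| / N_a` is an integer or it is
congruent modulo `ℤ` to the value of a facet `a'` which contains a simplex that is not of type `B1`
(and which lies, if `a'` has zero entries, in the lower hull with respect to the sum of the
corresponding coordinates).

Then the local motivic zeta function of `f` at the origin,
`𝕃 ^ (-n) ∑_{l ≥ 1} [𝒳_l] (𝕃 ^ (-n) T) ^ l` with `𝒳_l` the `l`-jets with origin `0` on which `f` has
order `l`, lies in the ring generated by `T` and finitely many `1 / (1 - 𝕃 ^ a T ^ b)` with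
`a < 0 < b` such that `a / b - i` is a root of the local Bernstein-Sato polynomial `b_{f,0}` for an
integer `i`; by the theorem of Malgrange and Kashiwara `exp(2 π i a / b)` is an eigenvalue of the
monodromy of `f` at points of `{f = 0}` arbitrarily near `0`.
-/

set_option autoImplicit false

namespace Pool.Agent.Results.MP_9321be_ag.NondegenerateMotivicLocal

open MvPolynomial Pool.Agent.W428.MOT Pool.Agent.W749.NM Pool.Agent.W425.MM
  Pool.Agent.W425.ND

/-- **The motivic monodromy conjecture at the origin for all polynomials `f = ∑_j c_j x ^ (v j)` which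
are nondegenerate with respect to their Newton polytope and satisfy `NoB1`.**

`spa v c` is the polynomial `∑_j c_j x ^ (v j)`; the `c j` may be zero, so that the `v j` may include
all the lattice points of the polytope. `Nondeg v c` says that for every face of the convex hull of
the `v j` (the face where the linear form `w ∈ ℝ ^ n` is minimal) the face polynomial and its
logarithmic derivatives have no common zero in `(ℂ \ 0) ^ n`.

`NoB1 v True` says that for every ray `a` of the normal fan of the Newton polyhedron (`IsRay v a`)
with `N_a := gord v a = min_j ⟨a, v j⟩ > 0` either `N_a` divides `|a|`, or `|a| / N_a - |a'| / N_{a'} ∈ ℤ`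
for some `a' ∈ ℕ ^ n` with `N_{a'} > 0` and `NonB v True a'`: there is a set `J` of `#{i | a' i ≠ 0}`
elements with `⟨a', v j⟩ = N_{a'}` for `j ∈ J` such that the vectors `(v j i)_{a' i ≠ 0}`, `j ∈ J`, are
linearly independent, no variable `x_i` with `a' i ≠ 0` occurs in exactly one of the monomials
`x ^ (v j)`, `j ∈ J`, and there with exponent `1`, and, with `h_l := ∑_{a' i = 0} v l i`, one has
`∑_{j ∈ J} c_j h_j ≤ h_l` for every `l` with `⟨a', v l⟩ = N_{a'}` whose vector `(v l i)_{a' i ≠ 0}` is
`∑_{j ∈ J} c_j (v j i)_{a' i ≠ 0}` (nothing, if all entries of `a'` are positive).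

`IsLocalBFunction f b` says that `b(s) f ^ s = P(s) f ^ (s + 1)` for a differential operator `P(s)`
with formal power series coefficients; the local Bernstein-Sato polynomial `b_{f,0}` is one of
these polynomials `b`. -/
theorem result (k K : Type) [Field k] [Algebra k ℂ] [Field K] [Algebra k K] {n r : ℕ}
    (hr : 1 ≤ r) (v : Fin r → Fin n → ℕ) (c : Fin r → k) (hv : Function.Injective v)
    (hv0 : ∀ j, v j ≠ 0) (hnd : Nondeg v (fun j => algebraMap k ℂ (c j))) (hB : NoB1 v True) :
    ∃ S : Finset (ℤ × ℤ),
      (∀ p ∈ S, p.1 < 0 ∧ 0 < p.2 ∧ ∀ b : Polynomial ℂ,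
        Pool.Agent.H628R4.TP.IsLocalBFunction (spa v (fun j => algebraMap k ℂ (c j))) b →
          ∃ i : ℤ, b.eval ((p.1 : ℂ) / p.2 - i) = 0) ∧
      zetaN (spa v (fun j => algebraMap k K (c j))) 0 ∈ ratRing K S := by
  obtain ⟨S, hS, hz⟩ := main hr v c hv hnd True hB
  refine ⟨S, fun p hp => ⟨(hS p hp).1, (hS p hp).2.1, fun b hb => ?_⟩, ?_⟩
  · obtain ⟨h1, h2⟩ := of_local v hr _ hv hv0 hnd b hb
    exact (hS p hp).2.2 b h1 h2
  · exact zetaN_mem _ 0 _ fun W E hW hE => hz K W E hW hE

end Pool.Agent.Results.MP_9321be_ag.NondegenerateMotivicLocal
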