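import Pool.Agent.W749.NM.Final

/-!
# The motivic monodromy conjecture at the origin for sparse polynomials

Let `f = x ^ A (∑_j c_j x ^ (m_j)) ^ e` with at least one term, `c_j ≠ 0`, affinely independent
exponents `m_j`, `e ≥ 1`, `f(0) = 0`, such that for every variable `x_i` either `x_i ∣ x ^ A` or
no `m_j` has `x_i`-exponent `1`. The local motivic zeta function of `f` at the origin,
`𝕃 ^ (-n) ∑_{N ≥ 1} [𝒳_N] (𝕃 ^ (-n) T) ^ N` with `𝒳_N` the `N`-jets with origin `0` on which `f`
has order `N`, lies in the ring generated by `T` and finitely many `1 / (1 - 𝕃 ^ a T ^ b)` with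
`a < 0 < b` and `a / b` a root of the local Bernstein-Sato polynomial of `f` at the origin.
-/

set_option autoImplicit false

namespace Pool.Agent.Results.MP_9321be_ag.SparseNaiveLocal

open MvPolynomial Pool.Agent.W428.MOT Pool.Agent.W749.NM

/-- **The motivic monodromy conjecture at the origin (Bernstein-Sato form) for the polynomials
`f = x ^ A (∑_j c_j x ^ (m_j)) ^ e` with affinely independent exponents `m_j` and no exponent `1`
in the variables which do not divide `x ^ A`.**

`IsLocalBFunction f b` says that `b(s) f ^ s = P(s) f ^ (s + 1)` for a differential operator `P(s)`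
with formal power series coefficients; the local Bernstein-Sato polynomial `b_{f,0}` is one of
these polynomials `b`. -/
theorem result (k K : Type) [Field k] [Algebra k ℂ] [Field K] [Algebra k K] {n r : ℕ}
    (A : Fin n → ℕ) (m : Fin r → Fin n → ℕ) (c : Fin r → k) (e : ℕ)
    (hm : AffineIndependent ℚ (fun (j : Fin r) (i : Fin n) => (m j i : ℚ)))
    (hc : ∀ j, c j ≠ 0) (hr : 0 < r) (he : 0 < e) (h1 : ∀ i, A i ≠ 0 ∨ ∀ j, m j i ≠ 1)
    (h0 : constantCoeff (sp A m c e) = 0) :
    ∃ S : Finset (ℤ × ℤ),
      (∀ p ∈ S, p.1 < 0 ∧ 0 < p.2 ∧ ∀ b : Polynomial ℂ,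
        Pool.Agent.H628R4.TP.IsLocalBFunction (sp A m (fun j => algebraMap k ℂ (c j)) e) b →
          b.eval ((p.1 : ℂ) / p.2) = 0) ∧
      zetaN (sp A m (fun j => algebraMap k K (c j)) e) 0 ∈ ratRing K S :=
  sFINN k K A m c e hm hc hr he h1 h0

end Pool.Agent.Results.MP_9321be_ag.SparseNaiveLocal
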